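import Pool.Agent.Run7.h382.S.CFa

/-!
# Piece S:CF of the project SYS (helper285), second part: the mean over `m`
-/

set_option autoImplicit false

namespace Run7.h382.S

open Finset
open Run7.h285.S
open Pool.Agent.W41 (JJ JJ_small)
open Pool.Agent.H373R2.T7 (pz Vz lamz mem_pz Vz_ge Vz_pos Vz_le_one card_pz_le)
open Pool.Agent.TH892.OW (card_pf Vz_log evt_ll evt_ll_ge params_z one_le_Vz_inv)
open Pool.Agent.H442R2.EHI (evt_log_pow evt_log_ge)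

/-- numbers of an interval in one class -/
lemma cnt_ap (p : ℕ) (hp : 1 ≤ p) (m₀ M : ℕ) (Q : ℕ → Prop) [DecidablePred Q]
    (hQ : ∀ m m' : ℕ, Q m → Q m' → m ≡ m' [MOD p]) :
    (((Ioc m₀ (m₀ + M)).filter Q).card : ℝ) ≤ (M : ℝ) / p + 1 := by
  rcases ((Ioc m₀ (m₀ + M)).filter Q).eq_empty_or_nonempty with h | ⟨v, hv⟩
  · rw [h, card_empty, Nat.cast_zero]; positivity
  · rw [mem_filter] at hv
    have h1 : ((Ioc m₀ (m₀ + M)).filter Q).card ≤ ((Ioc m₀ (m₀ + M)).filter (fun x => x ≡ v [MOD p])).card := by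
      apply card_le_card
      intro x hx
      rw [mem_filter] at hx ⊢
      exact ⟨hx.1, hQ x v hx.2 hv.2⟩
    have h2 := Nat.Ioc_filter_modEq_card m₀ (m₀ + M) (r := p) (by omega) v
    have h3 : ((((Ioc m₀ (m₀ + M)).filter (fun x => x ≡ v [MOD p])).card : ℕ) : ℚ) ≤ (M : ℚ) / p + 1 := by
      have h4 : ((((Ioc m₀ (m₀ + M)).filter (fun x => x ≡ v [MOD p])).card : ℕ) : ℚ) =
          ((((Ioc m₀ (m₀ + M)).filter (fun x => x ≡ v [MOD p])).card : ℤ) : ℚ) := by push_cast; rfl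
      rw [h4, h2]
      have hpq : (0 : ℚ) < p := by exact_mod_cast hp
      rw [Int.cast_max]
      apply max_le
      · push_cast
        have h5 := Int.floor_le (((m₀ : ℚ) + M - v) / (p : ℚ))
        have h6 := Int.lt_floor_add_one (((m₀ : ℚ) - v) / (p : ℚ))
        have h7 : ((m₀ : ℚ) + M - v) / p = ((m₀ : ℚ) - v) / p + M / p := by
          field_simp; ring
        push_cast at h5 h6 ⊢
        linarith
      · push_cast; positivity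
    have h5 : ((((Ioc m₀ (m₀ + M)).filter (fun x => x ≡ v [MOD p])).card : ℕ) : ℝ) ≤ (M : ℝ) / p + 1 := by
      have h6 := (Rat.cast_le (K := ℝ)).2 h3
      push_cast at h6
      exact h6
    refine le_trans ?_ h5
    exact_mod_cast h1

lemma dvd_shift (p : ℕ) (hp : p.Prime) (h2 : 2 < p) (i j : ℕ) (hij : i < j) (hd : ¬ (p : ℤ) ∣ ((j - i : ℕ) : ℤ)) (m m' : ℕ)
    (h : (p : ℤ) ∣ ((m + i : ℕ) : ℤ) ^ 2 - ((m + j : ℕ) : ℤ) ^ 2) (h' : (p : ℤ) ∣ ((m' + i : ℕ) : ℤ) ^ 2 - ((m' + j : ℕ) : ℤ) ^ 2) :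
    m ≡ m' [MOD p] := by
  have hpi : Prime (p : ℤ) := Nat.prime_iff_prime_int.1 hp
  have key : ∀ m : ℕ, (p : ℤ) ∣ ((m + i : ℕ) : ℤ) ^ 2 - ((m + j : ℕ) : ℤ) ^ 2 → (p : ℤ) ∣ 2 * m + i + j := by
    intro m h
    have e : ((m + i : ℕ) : ℤ) ^ 2 - ((m + j : ℕ) : ℤ) ^ 2 = -(((j - i : ℕ) : ℤ) * (2 * m + i + j)) := by
      push_cast [Nat.cast_sub hij.le]; ring
    rw [e, dvd_neg] at h
    exact (hpi.dvd_or_dvd h).resolve_left hd
  have h3 := dvd_sub (key m' h') (key m h)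
  rw [show 2 * (m' : ℤ) + i + j - (2 * m + i + j) = 2 * ((m' : ℤ) - m) by ring] at h3
  rcases hpi.dvd_or_dvd h3 with h4 | h4
  · exfalso
    have h5 : p ∣ 2 := by exact_mod_cast h4
    have := Nat.le_of_dvd (by norm_num) h5
    omega
  · exact (Nat.modEq_iff_dvd).2 h4

lemma sum_sg (w z : ℕ) (hw : 2 ≤ w) (hwz : w ≤ z) (i j : ℕ) (hij : i < j) (k : ℕ) (hk : Nat.log 2 (j - i) ≤ k) (m₀ M : ℕ) :
    ∑ m ∈ Ioc m₀ (m₀ + M), sg (((m + i : ℕ) : ℤ) ^ 2 - ((m + j : ℕ) : ℤ) ^ 2) w z ≤ M * (6 + k) / w + z := by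
  classical
  unfold sg
  rw [sum_comm]
  have hwr : (2 : ℝ) ≤ w := by exact_mod_cast hw
  have key : ∀ p ∈ TT w z, ∑ m ∈ Ioc m₀ (m₀ + M), (1 / ((p : ℝ) - 1) ^ 2 +
      if (p : ℤ) ∣ ((m + i : ℕ) : ℤ) ^ 2 - ((m + j : ℕ) : ℤ) ^ 2 then 1 / ((p : ℝ) - 1) else 0) ≤
      6 * M * ((p : ℝ) ^ 2)⁻¹ + (if (p : ℤ) ∣ ((j - i : ℕ) : ℤ) then (M : ℝ) / w else 0) + 1 := by
    intro p hp
    have hpp := (mem_TT.1 hp).1.2
    have hwp := (mem_TT.1 hp).2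
    have hp3 : 3 ≤ p := by omega
    have hp3r : (3 : ℝ) ≤ p := by exact_mod_cast hp3
    have hwpr : (w : ℝ) + 1 ≤ p := by exact_mod_cast hwp
    have hp1 : (0 : ℝ) < (p : ℝ) - 1 := by linarith
    have hM0 : (0 : ℝ) ≤ M := Nat.cast_nonneg _
    rw [sum_add_distrib, sum_const, Nat.card_Ioc, nsmul_eq_mul, ← sum_filter, sum_const, nsmul_eq_mul,
      show m₀ + M - m₀ = M by omega]
    have a1 : 1 / ((p : ℝ) - 1) ≤ 2 * (p : ℝ)⁻¹ := by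
      rw [← div_eq_mul_inv, div_le_div_iff₀ hp1 (by linarith)]; linarith
    have a2 : 1 / ((p : ℝ) - 1) ^ 2 ≤ 4 * ((p : ℝ) ^ 2)⁻¹ := by
      rw [← div_eq_mul_inv, div_le_div_iff₀ (by positivity) (by positivity)]; nlinarith
    have a3 : 1 / ((p : ℝ) - 1) ≤ 1 := by
      rw [div_le_one hp1]; linarith
    have a4 : 1 / ((p : ℝ) - 1) ≤ 1 / w := one_div_le_one_div_of_le (by linarith) (by linarith)
    have a5 : (M : ℝ) * (1 / ((p : ℝ) - 1) ^ 2) ≤ 4 * M * ((p : ℝ) ^ 2)⁻¹ := by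
      have := mul_le_mul_of_nonneg_left a2 hM0
      linarith
    have a6 : 0 < 1 / ((p : ℝ) - 1) := by positivity
    have a7 : (0 : ℝ) ≤ 2 * M * ((p : ℝ) ^ 2)⁻¹ := by positivity
    split_ifs with hd
    · have h1 : (#((Ioc m₀ (m₀ + M)).filter (fun m : ℕ => (p : ℤ) ∣ ((m + i : ℕ) : ℤ) ^ 2 - ((m + j : ℕ) : ℤ) ^ 2)) : ℝ) ≤ M := by
        have := card_filter_le (Ioc m₀ (m₀ + M)) (fun m : ℕ => (p : ℤ) ∣ ((m + i : ℕ) : ℤ) ^ 2 - ((m + j : ℕ) : ℤ) ^ 2)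
        rw [Nat.card_Ioc, show m₀ + M - m₀ = M by omega] at this
        exact_mod_cast this
      have h2 : (#((Ioc m₀ (m₀ + M)).filter (fun m : ℕ => (p : ℤ) ∣ ((m + i : ℕ) : ℤ) ^ 2 - ((m + j : ℕ) : ℤ) ^ 2)) : ℝ) *
          (1 / ((p : ℝ) - 1)) ≤ M * (1 / w) := mul_le_mul h1 a4 a6.le hM0
      have h3 : (M : ℝ) * (1 / w) = M / w := by ring
      linarith
    · have h1 := cnt_ap p (by omega) m₀ M (fun m : ℕ => (p : ℤ) ∣ ((m + i : ℕ) : ℤ) ^ 2 - ((m + j : ℕ) : ℤ) ^ 2)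
        (fun m m' h h' => dvd_shift p hpp (by omega) i j hij hd m m' h h')
      have h2 : (#((Ioc m₀ (m₀ + M)).filter (fun m : ℕ => (p : ℤ) ∣ ((m + i : ℕ) : ℤ) ^ 2 - ((m + j : ℕ) : ℤ) ^ 2)) : ℝ) *
          (1 / ((p : ℝ) - 1)) ≤ ((M : ℝ) / p + 1) * (1 / ((p : ℝ) - 1)) := mul_le_mul_of_nonneg_right h1 a6.le
      have h3 : (M : ℝ) / p * (1 / ((p : ℝ) - 1)) ≤ 2 * M * ((p : ℝ) ^ 2)⁻¹ := by
        calc (M : ℝ) / p * (1 / ((p : ℝ) - 1)) ≤ (M : ℝ) / p * (2 * (p : ℝ)⁻¹) :=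
              mul_le_mul_of_nonneg_left a1 (by positivity)
          _ = _ := by rw [div_eq_mul_inv, sq, mul_inv]; ring
      rw [add_mul, one_mul] at h2
      linarith
  refine (sum_le_sum key).trans ?_
  rw [sum_add_distrib, sum_add_distrib, ← mul_sum]
  have b1 : ∑ p ∈ TT w z, ((p : ℝ) ^ 2)⁻¹ ≤ (w : ℝ)⁻¹ := by
    have h1 : ∑ p ∈ TT w z, ((p : ℝ) ^ 2)⁻¹ ≤ ∑ n ∈ Ioc w z, ((n : ℝ) ^ 2)⁻¹ := by
      apply sum_le_sum_of_subset_of_nonneg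
      · intro p hp
        have := mem_TT.1 hp
        rw [mem_Ioc]; omega
      · intro _ _ _; positivity
    have h2 := sum_Ioc_inv_sq_le_sub (α := ℝ) (k := w) (n := z) (by omega) hwz
    have h3 : (0 : ℝ) ≤ (z : ℝ)⁻¹ := by positivity
    linarith
  have b2 : ∑ p ∈ TT w z, (if (p : ℤ) ∣ ((j - i : ℕ) : ℤ) then (M : ℝ) / w else 0) ≤ k * (M / w) := by
    rw [← sum_filter, sum_const, nsmul_eq_mul]
    apply mul_le_mul_of_nonneg_right _ (by positivity)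
    have h1 := card_pf z w ((j - i : ℕ) : ℤ) (by omega) k (by rw [Int.natAbs_natCast]; exact hk)
    have h2 : (TT w z).filter (fun p : ℕ => (p : ℤ) ∣ ((j - i : ℕ) : ℤ)) =
        (pz z).filter (fun p : ℕ => w < p ∧ (p : ℤ) ∣ ((j - i : ℕ) : ℤ)) := by
      unfold TT
      rw [filter_filter]
    rw [h2]
    exact_mod_cast h1
  have b3 : ∑ _p ∈ TT w z, (1 : ℝ) ≤ z := by
    rw [sum_const, nsmul_eq_mul, mul_one]
    exact_mod_cast (card_le_card (filter_subset _ _)).trans (card_pz_le z)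
  have b4 : 6 * (M : ℝ) * ∑ p ∈ TT w z, ((p : ℝ) ^ 2)⁻¹ ≤ 6 * M * (w : ℝ)⁻¹ :=
    mul_le_mul_of_nonneg_left b1 (by positivity)
  have e : (M : ℝ) * (6 + k) / w + z = 6 * M * (w : ℝ)⁻¹ + k * (M / w) + z := by
    rw [div_eq_mul_inv, div_eq_mul_inv]; ring
  rw [e]
  linarith

set_option maxHeartbeats 2000000 in
theorem CF : S_CF := by
  intro C D E u V hE hu
  obtain ⟨C0, K0, hC0, hK0, hcor⟩ := cor_le
  obtain ⟨Cv, hCv, hVl⟩ := Vz_log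
  obtain ⟨Xz, hXz⟩ := params_z E (4 * C0 + 2 + K0) hE
  have hur : (0 : ℝ) < u := by exact_mod_cast hu
  have hEr : (1 : ℝ) ≤ E := by exact_mod_cast hE
  obtain ⟨G0, hG0⟩ : ∃ G0 : ℝ, G0 = Cv * E ^ 2 := ⟨_, rfl⟩
  have hG01 : 1 ≤ G0 := by
    rw [hG0]
    exact one_le_mul_of_one_le_of_one_le hCv (one_le_pow₀ hEr)
  have hG0p : 0 < G0 := by linarith
  have hev : ∀ᶠ X : ℕ in Filter.atTop, (10000 : ℝ) ≤ Real.log X ∧
      (18 * G0 ^ 3 * (6 + 2 * D)) * Real.log (Real.log X) ^ (7 + V) ≤ Real.log X ^ (1 / (u : ℝ)) ∧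
      (48 * G0 ^ 2) * Real.log (Real.log X) ^ (4 + V) ≤ Real.log X ^ (1 : ℝ) ∧
      (9 * G0 ^ 3) * Real.log (Real.log X) ^ (6 + V) ≤ Real.log X ^ (1 : ℝ) ∧
      Real.log X ^ (E + 1) ≤ (X : ℝ) ^ (1 / 3 : ℝ) ∧
      4 * Real.log (Real.log X) ^ 0 ≤ Real.log X ^ (1 / (u : ℝ)) ∧
      Real.log X ^ 2 ≤ (X : ℝ) ^ (15 / 16 : ℝ) ∧ Xz ≤ X := by
    filter_upwards [evt_log_ge 10000, evt_ll (7 + V) (1 / (u : ℝ)) (18 * G0 ^ 3 * (6 + 2 * D)) (by positivity),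
      evt_ll (4 + V) 1 (48 * G0 ^ 2) (by norm_num), evt_ll (6 + V) 1 (9 * G0 ^ 3) (by norm_num),
      evt_log_pow (E + 1) (1 / 3) (by norm_num), evt_ll 0 (1 / (u : ℝ)) 4 (by positivity),
      evt_log_pow 2 (15 / 16) (by norm_num), Filter.eventually_ge_atTop Xz] with X a1 a2 a3 a4 a5 a6 a7 a8
    exact ⟨a1, a2, a3, a4, a5, a6, a7, a8⟩
  obtain ⟨X1, hX1⟩ := Filter.eventually_atTop.1 hev
  refine ⟨X1, fun X hX m₀ M i j hij hj hM _ => ?_⟩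
  obtain ⟨hl, e1, e2, e3, e4, e5, e6, hXXz⟩ := hX1 X hX
  obtain ⟨hm1, -, hz3, -, b, hCtb, hb1, hpb, hzb⟩ := hXz X hXXz
  clear hev hX1 hX hXz
  have hX0 : (0 : ℝ) < X := by
    rcases Nat.eq_zero_or_pos X with h | h
    · rw [h] at hl; norm_num at hl
    · exact_mod_cast h
  have hX1 : (1 : ℝ) ≤ X := by
    have : 0 < X := by exact_mod_cast hX0
    exact_mod_cast this
  obtain ⟨l, hld⟩ : ∃ l, l = Real.log X := ⟨_, rfl⟩
  rw [← hld] at hl e1 e2 e3 e4 e5 e6 hm1 hz3 hpb hzb hj ⊢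
  rw [Real.rpow_one] at e2 e3
  rw [pow_zero, mul_one] at e5
  obtain ⟨z, hz⟩ : ∃ z, z = ⌊l ^ E⌋₊ := ⟨_, rfl⟩
  obtain ⟨w, hw⟩ : ∃ w, w = ⌊l ^ (1 / (u : ℝ))⌋₊ := ⟨_, rfl⟩
  rw [← hz] at hz3 hzb
  rw [← hz, ← hw]
  obtain ⟨ℓ, hm⟩ : ∃ ℓ, ℓ = Real.log l := ⟨_, rfl⟩
  rw [← hm] at hm1 e1 e2 e3 ⊢
  have hl0 : 0 < l := by linarith
  have hl1 : 1 ≤ l := by linarith
  have hm0 : 0 < ℓ := by linarith
  have hzle : (z : ℝ) ≤ l ^ E := by rw [hz]; exact Nat.floor_le (by positivity)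
  have hzr : (3 : ℝ) ≤ z := by exact_mod_cast hz3
  have hwle : (w : ℝ) ≤ l ^ (1 / (u : ℝ)) := by rw [hw]; exact Nat.floor_le (by positivity)
  have hwge : l ^ (1 / (u : ℝ)) ≤ 2 * w := by
    have h3 := Nat.lt_floor_add_one (l ^ (1 / (u : ℝ)))
    rw [← hw] at h3
    linarith
  have hw2 : 2 ≤ w := by
    have h3 : (2 : ℝ) ≤ w := by linarith
    exact_mod_cast h3
  have hlu : l ^ (1 / (u : ℝ)) ≤ l := by
    calc l ^ (1 / (u : ℝ)) ≤ l ^ (1 : ℝ) := by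
          apply Real.rpow_le_rpow_of_exponent_le hl1
          rw [div_le_one hur]; exact_mod_cast hu
      _ = l := Real.rpow_one l
  have hwz : w ≤ z := by
    rw [hw, hz]
    apply Nat.floor_mono
    exact hlu.trans (le_self_pow₀ hl1 (by omega))
  have hwr : (2 : ℝ) ≤ w := by exact_mod_cast hw2
  have hw0 : (0 : ℝ) < w := by linarith
  -- the sieve products
  obtain ⟨G, hG⟩ : ∃ G, G = (Vz z)⁻¹ := ⟨_, rfl⟩
  have hGp : 0 < G := by rw [hG]; exact inv_pos.2 (Vz_pos z)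
  have hGle : G ≤ G0 * ℓ ^ 2 := by
    rw [hG, hG0]
    refine (hVl z hz3).trans ?_
    have h3 : Real.log z ≤ E * ℓ := by
      have := Real.log_le_log (by linarith) hzle
      rwa [Real.log_pow, ← hm] at this
    have h4 : 0 ≤ Real.log z := Real.log_nonneg (by linarith)
    calc Cv * Real.log z ^ 2 ≤ Cv * (E * ℓ) ^ 2 := by gcongr
      _ = _ := by ring
  -- the number of the prime factors
  obtain ⟨k, hk⟩ : ∃ k, k = Nat.log 2 (j - i) := ⟨_, rfl⟩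
  have hkle : (k : ℝ) ≤ 2 * D * ℓ := by
    have h3 : (2 : ℝ) ^ k ≤ l ^ D := by
      have h4 : 2 ^ k ≤ j - i := by rw [hk]; exact Nat.pow_log_le_self 2 (by omega)
      have h5 : (2 : ℝ) ^ k ≤ j := by
        have : 2 ^ k ≤ j := by omega
        exact_mod_cast this
      exact h5.trans hj
    have h4 := Real.log_le_log (by positivity) h3
    rw [Real.log_pow, Real.log_pow, ← hm] at h4
    have h5 : (0.6 : ℝ) < Real.log 2 := by have := Real.log_two_gt_d9; linarith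
    have h6 : (0 : ℝ) ≤ k := Nat.cast_nonneg _
    have h7 : (k : ℝ) * 0.6 ≤ k * Real.log 2 := mul_le_mul_of_nonneg_left h5.le h6
    have h8 : 0 ≤ (D : ℝ) * ℓ := by positivity
    linarith
  have hk6 : (6 : ℝ) + k ≤ (6 + 2 * D) * ℓ := by
    have h8 : (6 + 2 * (D : ℝ)) * ℓ = 6 * ℓ + 2 * D * ℓ := by ring
    rw [h8]
    linarith
  -- the error
  obtain ⟨Er, hEr'⟩ : ∃ Er, Er = (1 / 2 : ℝ) ^ b * (2 * X + 1) +
        ((JJ z : ℝ) + 2) * ((z : ℝ) ^ (2 * (C0 * b)) * (K0 * (z : ℝ) ^ (2 * (C0 * b)))) := ⟨_, rfl⟩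
  have hErle : Er ≤ 4 * X / l ^ 2 := by
    have hJ : ((JJ z : ℝ) + 2) ≤ z * z := by
      have h3 : ((JJ z : ℝ) + 2) ≤ 2 * z := by exact_mod_cast JJ_small z (by omega)
      nlinarith
    have hK : (K0 : ℝ) ≤ (z : ℝ) ^ K0 := by
      have h3 : K0 ≤ z ^ K0 := (Nat.lt_pow_self (by omega)).le
      exact_mod_cast h3
    have h3 : ((JJ z : ℝ) + 2) * ((z : ℝ) ^ (2 * (C0 * b)) * (K0 * (z : ℝ) ^ (2 * (C0 * b)))) ≤
        (z : ℝ) ^ ((4 * C0 + 2 + K0) * b) := by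
      calc ((JJ z : ℝ) + 2) * ((z : ℝ) ^ (2 * (C0 * b)) * (K0 * (z : ℝ) ^ (2 * (C0 * b))))
          ≤ (z * z) * ((z : ℝ) ^ (2 * (C0 * b)) * ((z : ℝ) ^ K0 * (z : ℝ) ^ (2 * (C0 * b)))) := by gcongr
        _ = (z : ℝ) ^ (4 * (C0 * b) + 2 + K0) := by
            rw [show 4 * (C0 * b) + 2 + K0 = 2 * (C0 * b) + 2 * (C0 * b) + K0 + 1 + 1 by ring]
            simp only [pow_succ, pow_add]
            ring
        _ ≤ _ := by
            apply pow_le_pow_right₀ (by linarith)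
            nlinarith
    have h4 : (X : ℝ) ^ (1 / 16 : ℝ) ≤ X / l ^ 2 := by
      rw [le_div_iff₀ (by positivity)]
      calc (X : ℝ) ^ (1 / 16 : ℝ) * l ^ 2 ≤ (X : ℝ) ^ (1 / 16 : ℝ) * (X : ℝ) ^ (15 / 16 : ℝ) := by gcongr
        _ = X := by rw [← Real.rpow_add hX0]; norm_num
    have h5 : (1 / 2 : ℝ) ^ b * (2 * X + 1) ≤ 1 / l ^ 2 * (3 * X) :=
      mul_le_mul hpb (by linarith) (by positivity) (by positivity)
    have h6 : 4 * (X : ℝ) / l ^ 2 = 1 / l ^ 2 * (3 * X) + X / l ^ 2 := by ring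
    rw [hEr', h6]
    linarith
  -- the sum
  have hsum : ∑ m ∈ Ioc m₀ (m₀ + M), |cor (fun y => ll z y - ll w y) X (m + i) (m + j)| ≤
      (2 * X + 1) * (G ^ 3 * (M * (6 + k) / w + z)) + M * (4 * G ^ 2 * Er) := by
    have h1 : ∀ m ∈ Ioc m₀ (m₀ + M), |cor (fun y => ll z y - ll w y) X (m + i) (m + j)| ≤
        (2 * X + 1) * G ^ 3 * sg (((m + i : ℕ) : ℤ) ^ 2 - ((m + j : ℕ) : ℤ) ^ 2) w z + 4 * G ^ 2 * Er := by
      intro m _
      have h2 := hcor b (by omega) w z hw2 hwz X (m + i) (m + j)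
      rw [← hG, ← hEr'] at h2
      refine h2.trans (le_of_eq ?_)
      ring
    refine (sum_le_sum h1).trans ?_
    rw [sum_add_distrib, ← mul_sum, sum_const, Nat.card_Ioc, nsmul_eq_mul, show m₀ + M - m₀ = M by omega]
    have h2 := sum_sg w z hw2 hwz i j hij k hk.symm.le m₀ M
    have h3 := mul_le_mul_of_nonneg_left h2 (show (0 : ℝ) ≤ (2 * X + 1) * G ^ 3 by positivity)
    linarith
  refine hsum.trans ?_
  have hM0 : (0 : ℝ) ≤ M := Nat.cast_nonneg _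
  have hG3 : G ^ 3 ≤ G0 ^ 3 * ℓ ^ 6 := by
    calc G ^ 3 ≤ (G0 * ℓ ^ 2) ^ 3 := by gcongr
      _ = _ := by ring
  have hG2 : G ^ 2 ≤ G0 ^ 2 * ℓ ^ 4 := by
    calc G ^ 2 ≤ (G0 * ℓ ^ 2) ^ 2 := by gcongr
      _ = _ := by ring
  have hVp : 0 < ℓ ^ V := by positivity
  have t1 : (2 * (X : ℝ) + 1) * (G ^ 3 * (M * (6 + k) / w)) ≤ 1 / 3 * (X * M / ℓ ^ V) := by
    have h1 : 9 * (G ^ 3 * (6 + k)) * ℓ ^ V ≤ w := by
      have h2 : G ^ 3 * (6 + k) ≤ G0 ^ 3 * ℓ ^ 6 * ((6 + 2 * D) * ℓ) :=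
        mul_le_mul hG3 hk6 (by positivity) (by positivity)
      calc 9 * (G ^ 3 * (6 + k)) * ℓ ^ V ≤ 9 * (G0 ^ 3 * ℓ ^ 6 * ((6 + 2 * D) * ℓ)) * ℓ ^ V := by gcongr
        _ = (18 * G0 ^ 3 * (6 + 2 * D)) * ℓ ^ (7 + V) / 2 := by rw [pow_add]; ring
        _ ≤ l ^ (1 / (u : ℝ)) / 2 := by linarith
        _ ≤ w := by linarith
    have h2 : (2 * (X : ℝ) + 1) ≤ 3 * X := by linarith
    rw [mul_div_assoc', mul_div_assoc', mul_div_assoc', div_le_div_iff₀ hw0 hVp]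
    calc (2 * (X : ℝ) + 1) * (G ^ 3 * (M * (6 + k))) * ℓ ^ V ≤ (3 * X) * (G ^ 3 * (M * (6 + k))) * ℓ ^ V := by gcongr
      _ = X * M / 3 * (9 * (G ^ 3 * (6 + k)) * ℓ ^ V) := by ring
      _ ≤ X * M / 3 * w := mul_le_mul_of_nonneg_left h1 (by positivity)
      _ = _ := by ring
  have t2 : (2 * (X : ℝ) + 1) * (G ^ 3 * z) ≤ 1 / 3 * (X * M / ℓ ^ V) := by
    have h1 : 9 * (G ^ 3 * z) * ℓ ^ V ≤ M := by
      calc 9 * (G ^ 3 * z) * ℓ ^ V ≤ 9 * (G0 ^ 3 * ℓ ^ 6 * l ^ E) * ℓ ^ V := by gcongr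
        _ = (9 * G0 ^ 3) * ℓ ^ (6 + V) * l ^ E := by rw [pow_add]; ring
        _ ≤ l * l ^ E := by gcongr
        _ = l ^ (E + 1) := by rw [pow_succ]; ring
        _ ≤ M := e4.trans hM
    have h2 : (2 * (X : ℝ) + 1) ≤ 3 * X := by linarith
    rw [mul_div_assoc', le_div_iff₀ hVp]
    calc (2 * (X : ℝ) + 1) * (G ^ 3 * z) * ℓ ^ V ≤ (3 * X) * (G ^ 3 * z) * ℓ ^ V := by gcongr
      _ = X / 3 * (9 * (G ^ 3 * z) * ℓ ^ V) := by ring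
      _ ≤ X / 3 * M := mul_le_mul_of_nonneg_left h1 (by positivity)
      _ = _ := by ring
  have t3 : (M : ℝ) * (4 * G ^ 2 * Er) ≤ 1 / 3 * (X * M / ℓ ^ V) := by
    have h1 : 48 * G ^ 2 * ℓ ^ V ≤ l ^ 2 := by
      calc 48 * G ^ 2 * ℓ ^ V ≤ 48 * (G0 ^ 2 * ℓ ^ 4) * ℓ ^ V := by gcongr
        _ = (48 * G0 ^ 2) * ℓ ^ (4 + V) := by rw [pow_add]; ring
        _ ≤ l := e2
        _ ≤ l ^ 2 := le_self_pow₀ hl1 (by norm_num)
    have h2 : (M : ℝ) * (4 * G ^ 2 * Er) ≤ M * (4 * G ^ 2 * (4 * X / l ^ 2)) := by gcongr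
    refine h2.trans ?_
    rw [mul_div_assoc', mul_div_assoc', mul_div_assoc', div_le_div_iff₀ (by positivity) hVp]
    calc (M : ℝ) * (4 * G ^ 2 * (4 * X)) * ℓ ^ V = X * M / 3 * (48 * G ^ 2 * ℓ ^ V) := by ring
      _ ≤ X * M / 3 * l ^ 2 := mul_le_mul_of_nonneg_left h1 (by positivity)
      _ = _ := by ring
  have e7 : (2 * (X : ℝ) + 1) * (G ^ 3 * (M * (6 + k) / w + z)) =
      (2 * (X : ℝ) + 1) * (G ^ 3 * (M * (6 + k) / w)) + (2 * (X : ℝ) + 1) * (G ^ 3 * z) := by ring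
  rw [e7]
  linarith

end Run7.h382.S
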