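import Pool.Agent.Run7.h285.S.Stm
import Pool.Agent.TH892.SW.S3

/-!
# Piece S:FLS of the project SYS (helper285): the fundamental lemma in a window for systems

Model: `flq` in `Pool/Agent/TH892/SW/S3.lean` and `fl` in `Pool/Agent/Run7/h285/E3a.lean`.
-/

set_option autoImplicit false

namespace Run7.h382.S

open Finset Filter
open Run7.h285.S
open Pool.Agent.H373R2.T7 (pz Vz lamz mem_pz Vz_ge Vz_pos)
open Pool.Agent.TH892.SW (fl_set root_card rk_le rk)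
open Pool.Agent.W41 (JJ JJ_small)

/-- translation of residues -/
lemma shift_card (p : ℕ) [Fact p.Prime] (Q : ZMod p → Prop) [DecidablePred Q] (A : ZMod p) :
    ((range p).filter (fun x : ℕ => Q (A + (x : ZMod p)))).card = ((univ : Finset (ZMod p)).filter Q).card := by
  refine card_nbij' (fun a : ℕ => A + (a : ZMod p)) (fun x => (x - A).val) ?_ ?_ ?_ ?_
  · intro a ha
    rw [mem_coe, mem_filter] at ha
    rw [mem_coe, mem_filter]
    exact ⟨mem_univ _, ha.2⟩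
  · intro x hx
    rw [mem_coe, mem_filter] at hx
    rw [mem_coe, mem_filter, mem_range]
    refine ⟨ZMod.val_lt _, ?_⟩
    rw [ZMod.natCast_zmod_val, add_sub_cancel]
    exact hx.2
  · intro a ha
    rw [mem_coe, mem_filter, mem_range] at ha
    simp only [add_sub_cancel_left]
    exact ZMod.val_cast_of_lt ha.1
  · intro x _
    simp only [ZMod.natCast_zmod_val, add_sub_cancel]

open Classical in
lemma nu_shift {k : ℕ} (a : Fin k → ℤ) (m p : ℕ) (hp : p.Prime) :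
    #((range p).filter (fun x : ℕ => ∃ l, (p : ℤ) ∣ ((m : ℤ) + x) ^ 2 + a l)) = nu a p := by
  have : Fact p.Prime := ⟨hp⟩
  have key : ∀ (A : ℤ) (x : ℕ), (∃ l, (p : ℤ) ∣ (A + x) ^ 2 + a l) ↔
      ∃ l, ((A : ZMod p) + (x : ZMod p)) ^ 2 + ((a l : ℤ) : ZMod p) = 0 := by
    intro A x
    refine exists_congr fun l => ?_
    rw [← ZMod.intCast_zmod_eq_zero_iff_dvd]
    push_cast
    exact Iff.rfl
  have h1 := shift_card p (fun y => ∃ l, y ^ 2 + ((a l : ℤ) : ZMod p) = 0) (((m : ℕ) : ℤ) : ZMod p)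
  have h2 := shift_card p (fun y => ∃ l, y ^ 2 + ((a l : ℤ) : ZMod p) = 0) (((0 : ℤ)) : ZMod p)
  have e1 : (range p).filter (fun x : ℕ => ∃ l, (p : ℤ) ∣ ((m : ℤ) + x) ^ 2 + a l) =
      (range p).filter (fun x : ℕ => ∃ l, ((((m : ℕ) : ℤ) : ZMod p) + (x : ZMod p)) ^ 2 + ((a l : ℤ) : ZMod p) = 0) :=
    filter_congr fun x _ => key _ x
  have e2 : nu a p = #((range p).filter (fun x : ℕ => ∃ l, ((((0 : ℤ)) : ZMod p) + (x : ZMod p)) ^ 2 + ((a l : ℤ) : ZMod p) = 0)) := by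
    unfold nu
    congr 1
    apply filter_congr
    intro x _
    rw [← key 0 x, zero_add]
  rw [e1, e2, h1, h2]

lemma nu_le {k : ℕ} (a : Fin k → ℤ) (p : ℕ) (hp : p.Prime) : nu a p ≤ 2 * k := by
  classical
  unfold nu
  have h1 : (range p).filter (fun x : ℕ => ∃ l, (p : ℤ) ∣ (x : ℤ) ^ 2 + a l) ⊆
      (univ : Finset (Fin k)).biUnion (fun l => (range p).filter (fun x : ℕ => (p : ℤ) ∣ ((0 : ℤ) + x) ^ 2 - (-a l))) := by
    intro x hx
    rw [mem_filter] at hx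
    obtain ⟨h2, l, h3⟩ := hx
    rw [mem_biUnion]
    refine ⟨l, mem_univ _, mem_filter.2 ⟨h2, ?_⟩⟩
    rw [zero_add, sub_neg_eq_add]
    exact h3
  refine le_trans ?_ ((card_le_card h1).trans (card_biUnion_le.trans ((sum_le_card_nsmul _ _ 2 ?_).trans ?_)))
  · exact le_of_eq (by congr)
  · intro l _
    have h2 := root_card p hp 0 (-a l)
    have h3 : ((((range p).filter (fun x : ℕ => (p : ℤ) ∣ ((0 : ℤ) + x) ^ 2 - (-a l))).card : ℕ) : ℝ) ≤ 2 := by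
      rw [h2]; exact rk_le (-a l) p
    exact_mod_cast h3
  · rw [card_univ, Fintype.card_fin, smul_eq_mul, mul_comm]

/-- one factor -/
lemma fac_ge (k p v : ℕ) (hp : 2 ≤ p) (hv1 : v < p) (hv2 : v ≤ 2 * k) :
    (1 - 1 / (p : ℝ)) ^ (16 * k ^ 2 + 4 * k) ≤ 1 - (v : ℝ) / p := by
  have hpr : (2 : ℝ) ≤ p := by exact_mod_cast hp
  have hp0 : (0 : ℝ) < p := by linarith
  have hp1 : (0 : ℝ) < (p : ℝ) - 1 := by linarith
  have hx : 1 - 1 / (p : ℝ) = (1 + 1 / ((p : ℝ) - 1))⁻¹ := by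
    field_simp
    ring
  have hb : ∀ D : ℕ, (1 - 1 / (p : ℝ)) ^ D ≤ (1 + D / ((p : ℝ) - 1))⁻¹ := by
    intro D
    rw [hx, inv_pow]
    apply inv_anti₀
    · positivity
    · have h0 : 0 < 1 / ((p : ℝ) - 1) := by positivity
      have h := one_add_mul_le_pow (a := 1 / ((p : ℝ) - 1)) (by linarith) D
      rw [mul_one_div] at h
      exact h
  have h01 : 0 ≤ 1 - 1 / (p : ℝ) := by
    rw [sub_nonneg, div_le_one hp0]; linarith
  have h11 : 1 - 1 / (p : ℝ) ≤ 1 := by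
    have : 0 < 1 / (p : ℝ) := by positivity
    linarith
  rcases Nat.lt_or_ge (4 * k) p with h | h
  · have h1 : (1 - 1 / (p : ℝ)) ^ (16 * k ^ 2 + 4 * k) ≤ (1 - 1 / (p : ℝ)) ^ (4 * k) :=
      pow_le_pow_of_le_one h01 h11 (by omega)
    refine h1.trans ((hb (4 * k)).trans ?_)
    have hkr : 4 * (k : ℝ) + 1 ≤ p := by exact_mod_cast h
    have hvr : (v : ℝ) ≤ 2 * k := by exact_mod_cast hv2
    have hk0 : (0 : ℝ) ≤ k := Nat.cast_nonneg _
    have h2 : 1 - (2 * k : ℝ) / p ≤ 1 - (v : ℝ) / p := by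
      have : (v : ℝ) / p ≤ 2 * k / p := div_le_div_of_nonneg_right hvr hp0.le
      linarith
    refine le_trans ?_ h2
    rw [show (1 : ℝ) + ((4 * k : ℕ) : ℝ) / ((p : ℝ) - 1) = ((p : ℝ) - 1 + 4 * k) / ((p : ℝ) - 1) by
      push_cast; field_simp, inv_div, show 1 - 2 * (k : ℝ) / p = (p - 2 * k) / p by field_simp,
      div_le_div_iff₀ (by linarith) hp0]
    nlinarith
  · refine (hb _).trans ?_
    have hvr : (v : ℝ) + 1 ≤ p := by exact_mod_cast hv1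
    have h2 : 1 / (p : ℝ) ≤ 1 - (v : ℝ) / p := by
      rw [one_sub_div hp0.ne']
      exact div_le_div_of_nonneg_right (by linarith) hp0.le
    refine le_trans ?_ h2
    rw [one_div]
    apply inv_anti₀ hp0
    have hkr : (p : ℝ) ≤ 4 * k := by exact_mod_cast h
    rw [← sub_le_iff_le_add', le_div_iff₀ hp1]
    push_cast
    nlinarith

lemma prod_eq {k : ℕ} (a : Fin k → ℤ) (w : ℕ) :
    ∏ p ∈ pz w, (1 - (nu a p : ℝ) / p) = Vz w ^ k * SS a w := by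
  unfold SS Vz
  have h1 : pz w = (range (w + 1)).filter Nat.Prime := by
    ext p
    rw [mem_pz, mem_filter, mem_range, Nat.lt_succ_iff]
  rw [← h1, ← prod_pow, ← prod_mul_distrib]
  refine prod_congr rfl fun p hp => ?_
  have hp2 : (2 : ℝ) ≤ p := by exact_mod_cast (mem_pz.1 hp).2.two_le
  have h2 : (1 - 1 / (p : ℝ)) ≠ 0 := by
    have : 1 / (p : ℝ) ≤ 1 / 2 := one_div_le_one_div_of_le (by norm_num) hp2
    linarith
  rw [mul_div_cancel₀ _ (pow_ne_zero k h2)]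

lemma prod_ge {k : ℕ} (a : Fin k → ℤ) (ha : Adm a) (w : ℕ) (hw : 1 ≤ w) :
    1 / (w : ℝ) ^ (16 * k ^ 2 + 4 * k) ≤ ∏ p ∈ pz w, (1 - (nu a p : ℝ) / p) := by
  have h1 : (1 / (w : ℝ)) ^ (16 * k ^ 2 + 4 * k) ≤ Vz w ^ (16 * k ^ 2 + 4 * k) :=
    pow_le_pow_left₀ (by positivity) (Vz_ge w hw) _
  rw [one_div_pow] at h1
  refine h1.trans ?_
  unfold Vz
  rw [← prod_pow]
  apply Finset.prod_le_prod
  · intro p hp
    have hp2 : (2 : ℝ) ≤ p := by exact_mod_cast (mem_pz.1 hp).2.two_le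
    have : 1 / (p : ℝ) ≤ 1 / 2 := one_div_le_one_div_of_le (by norm_num) hp2
    exact pow_nonneg (by linarith) _
  · intro p hp
    have hpp := (mem_pz.1 hp).2
    exact fac_ge k p _ hpp.two_le (ha p hpp) (nu_le a p hpp)

open Classical in
lemma lam_win {k : ℕ} (w : ℕ) (a : Fin k → ℤ) (m H : ℕ) :
    ∑ n ∈ Ioc m (m + H), pr (fun _ => ll w) a n = (Vz w ^ k)⁻¹ *
      ((((Icc 1 H).filter (fun t : ℕ => ∀ p ∈ pz w, ¬ ∃ l, (p : ℤ) ∣ ((m : ℤ) + t) ^ 2 + a l)).card : ℕ) : ℝ) := by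
  have h1 : ∑ i ∈ Ioc m (m + H), pr (fun _ => ll w) a i =
      ∑ t ∈ Icc 1 H, pr (fun _ => ll w) a (m + t) := by
    refine sum_nbij' (fun i => i - m) (fun t => m + t) ?_ ?_ ?_ ?_ ?_
    · intro i hi
      rw [mem_Ioc] at hi; rw [mem_Icc]; omega
    · intro t ht
      rw [mem_Icc] at ht; rw [mem_Ioc]; omega
    · intro i hi
      rw [mem_Ioc] at hi; omega
    · intro t ht
      omega
    · intro i hi
      rw [mem_Ioc] at hi
      rw [show m + (i - m) = i by omega]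
  rw [h1, card_filter]
  push_cast
  rw [mul_sum]
  refine sum_congr rfl fun t _ => ?_
  unfold pr ll lamz
  have h3 : ∀ (l : Fin k) (p : ℕ), (p ∣ ((((m + t : ℕ) : ℤ)) ^ 2 + a l).natAbs) ↔
      ((p : ℤ) ∣ ((m : ℤ) + t) ^ 2 + a l) := by
    intro l p
    rw [← Int.natCast_dvd]
    push_cast
    exact Iff.rfl
  by_cases h4 : ∀ p ∈ pz w, ¬ ∃ l, (p : ℤ) ∣ ((m : ℤ) + t) ^ 2 + a l
  · rw [if_pos h4, mul_one]
    have h5 : ∀ l : Fin k, (if ∀ p ∈ pz w, ¬ p ∣ ((((m + t : ℕ) : ℤ)) ^ 2 + a l).natAbs then (Vz w)⁻¹ else 0) = (Vz w)⁻¹ := by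
      intro l
      rw [if_pos]
      intro p hp hd
      exact h4 p hp ⟨l, (h3 l p).1 hd⟩
    rw [prod_congr rfl fun l _ => h5 l, prod_const, card_univ, Fintype.card_fin, inv_pow]
  · rw [if_neg h4, mul_zero]
    push Not at h4
    obtain ⟨p, hp, l, hd⟩ := h4
    apply prod_eq_zero (mem_univ l)
    show (if ∀ p ∈ pz w, ¬ p ∣ ((((m + t : ℕ) : ℤ)) ^ 2 + a l).natAbs then (Vz w)⁻¹ else 0) = 0
    rw [if_neg]
    intro h5
    exact h5 p hp ((h3 l p).2 hd)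

theorem FLS (k : ℕ) : S_FLS k := by
  classical
  obtain ⟨C0, K0, hC0, hK0, hfl⟩ := fl_set (2 * k)
  set D : ℕ := 16 * k ^ 2 + 4 * k with hD
  refine ⟨4 * C0 + 4 + D, K0 + 3, by omega, by omega, fun b hb w hw H hH a m ha => ?_⟩
  have hwp := Vz_pos w
  have hb1 : 1 ≤ b := by omega
  have hfl1 := hfl b (by omega) w (by omega) H (pz w) (fun p x => ∃ l, (p : ℤ) ∣ ((m : ℤ) + x) ^ 2 + a l) (by
    intro p hp
    rw [mem_pz] at hp
    refine ⟨hp.2, hp.1, ?_⟩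
    have h2 := nu_shift a m p hp.2
    have h3 := nu_le a p hp.2
    rw [← h2] at h3
    convert h3)
  have hVe : ∏ p ∈ pz w, (1 - ((((range p).filter (fun x : ℕ => ∃ l, (p : ℤ) ∣ ((m : ℤ) + x) ^ 2 + a l)).card : ℕ) : ℝ) / p) =
      Vz w ^ k * SS a w := by
    rw [← prod_eq]
    apply prod_congr rfl
    intro p hp
    rw [nu_shift a m p (mem_pz.1 hp).2]
  have hmod : ∀ n p : ℕ, (∃ l, (p : ℤ) ∣ ((m : ℤ) + ((n % p : ℕ) : ℤ)) ^ 2 + a l) ↔
      (∃ l, (p : ℤ) ∣ ((m : ℤ) + (n : ℤ)) ^ 2 + a l) := by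
    intro n p
    refine exists_congr fun l => ?_
    have h3 : ((m : ℤ) + ((n % p : ℕ) : ℤ)) ^ 2 + a l ≡ ((m : ℤ) + (n : ℤ)) ^ 2 + a l [ZMOD p] := by
      apply Int.ModEq.add_right
      apply Int.ModEq.pow
      apply Int.ModEq.add_left
      rw [Int.natCast_mod]
      exact Int.mod_modEq _ _
    rw [Int.dvd_iff_emod_eq_zero, Int.dvd_iff_emod_eq_zero, h3]
  have hset : ((Icc 1 H).filter (fun t : ℕ => ∀ p ∈ pz w, ¬ ∃ l, (p : ℤ) ∣ ((m : ℤ) + t) ^ 2 + a l)) =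
      ((Icc 1 H).filter (fun n : ℕ => ∀ p ∈ pz w, ¬ ∃ l, (p : ℤ) ∣ ((m : ℤ) + ((n % p : ℕ) : ℤ)) ^ 2 + a l)) := by
    apply filter_congr
    intro n _
    constructor
    · intro h p hp hd
      exact h p hp ((hmod n p).1 hd)
    · intro h p hp hd
      exact h p hp ((hmod n p).2 hd)
  rw [lam_win, hset]
  set V := Vz w ^ k * SS a w with hV
  set cd : ℝ := ((((Icc 1 H).filter (fun n : ℕ => ∀ p ∈ pz w, ¬ ∃ l, (p : ℤ) ∣ ((m : ℤ) + ((n % p : ℕ) : ℤ)) ^ 2 + a l)).card : ℕ) : ℝ)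
    with hcd
  have h2 : |cd - H * V| ≤
      (1 / 2 : ℝ) ^ b * (H * V) + ((JJ w : ℝ) + 2) * ((w : ℝ) ^ (2 * (C0 * b)) * (K0 * (w : ℝ) ^ (2 * (C0 * b)))) := by
    rw [← hVe, hcd]
    convert hfl1 using 6 <;> congr!
  have hy1 : (1 : ℝ) ≤ w := by exact_mod_cast (by omega : 1 ≤ w)
  have hy2 : (2 : ℝ) ≤ w := by exact_mod_cast (by omega : 2 ≤ w)
  have hy0 : (0 : ℝ) < w := by linarith
  have hVlow : 1 / (w : ℝ) ^ D ≤ V := by
    rw [hV, ← prod_eq]; exact prod_ge a ha w (by omega)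
  have hJ : ((JJ w : ℝ) + 2) ≤ w * w := by
    have h3 : ((JJ w : ℝ) + 2) ≤ 2 * w := by exact_mod_cast JJ_small w (by omega)
    nlinarith
  have hK0' : (K0 : ℝ) ≤ w := by exact_mod_cast (by omega : K0 ≤ w)
  have h3 : ((JJ w : ℝ) + 2) * ((w : ℝ) ^ (2 * (C0 * b)) * (K0 * (w : ℝ) ^ (2 * (C0 * b)))) ≤
      (w : ℝ) ^ (4 * (C0 * b) + 3) := by
    calc ((JJ w : ℝ) + 2) * ((w : ℝ) ^ (2 * (C0 * b)) * (K0 * (w : ℝ) ^ (2 * (C0 * b))))
        ≤ (w * w) * ((w : ℝ) ^ (2 * (C0 * b)) * (w * (w : ℝ) ^ (2 * (C0 * b)))) := by gcongr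
      _ = (w : ℝ) ^ (4 * (C0 * b) + 3) := by
          rw [show 4 * (C0 * b) + 3 = 2 * (C0 * b) + 2 * (C0 * b) + 1 + 1 + 1 by ring]
          simp only [pow_succ, pow_add]
          ring
  have h4 : (w : ℝ) ^ (4 * (C0 * b) + 3) ≤ (1 / 2 : ℝ) ^ b * (H * V) := by
    have h5 : (w : ℝ) ^ ((4 * C0 + 4 + D) * b) ≤ H := by exact_mod_cast hH
    have h6 : (2 : ℝ) ^ b ≤ (w : ℝ) ^ b := pow_le_pow_left₀ (by norm_num) hy2 b
    have h7 : (w : ℝ) ^ ((4 * C0 + 4 + D) * b) * (1 / (w : ℝ) ^ D) ≤ H * V :=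
      mul_le_mul h5 hVlow (by positivity) (Nat.cast_nonneg _)
    have h8 : (w : ℝ) ^ (4 * (C0 * b) + 3) * (w : ℝ) ^ b ≤ (w : ℝ) ^ ((4 * C0 + 4 + D) * b) * (1 / (w : ℝ) ^ D) := by
      rw [mul_one_div, le_div_iff₀ (by positivity), ← pow_add, ← pow_add]
      apply pow_le_pow_right₀ hy1
      nlinarith
    rw [one_div, inv_pow, ← div_eq_inv_mul, le_div_iff₀ (by positivity)]
    calc (w : ℝ) ^ (4 * (C0 * b) + 3) * 2 ^ b ≤ (w : ℝ) ^ (4 * (C0 * b) + 3) * (w : ℝ) ^ b := by gcongr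
      _ ≤ _ := h8.trans h7
  have h5 : |cd - H * V| ≤ 2 * (1 / 2 : ℝ) ^ b * (H * V) := by linarith
  have hVk : 0 < Vz w ^ k := pow_pos hwp k
  have e : (Vz w ^ k)⁻¹ * cd - H * SS a w = (Vz w ^ k)⁻¹ * (cd - H * V) := by
    rw [hV]
    field_simp
  rw [e, abs_mul, abs_of_pos (inv_pos.2 hVk)]
  calc (Vz w ^ k)⁻¹ * |cd - H * V| ≤ (Vz w ^ k)⁻¹ * (2 * (1 / 2 : ℝ) ^ b * (H * V)) :=
        mul_le_mul_of_nonneg_left h5 (inv_nonneg.2 hVk.le)
    _ = _ := by rw [hV]; field_simp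

end Run7.h382.S
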