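import Pool.Agent.Run7.h285.S.Stm
import Pool.Agent.TH892.OW.B5c

/-!
# Piece S:CF of the project SYS (helper285), first part: correlations of sieve weights
-/

set_option autoImplicit false

namespace Run7.h382.S

open Finset
open Run7.h285.S
open Pool.Agent.W41 (JJ JJ_small)
open Pool.Agent.H373R2.T7 (pz Vz lamz mem_pz Vz_ge Vz_pos Vz_le_one)
open Pool.Agent.TH892.SW (fl_set)
open Pool.Agent.TH892.OW (root_lin prod_fac_le fac_pos fac_inv pz_mono Vz_anti one_le_Vz_inv card_pf)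

/-! ### counting -/

open Classical in
/-- the count -/
noncomputable def NN (A B : ℤ) (X x y : ℕ) : ℕ :=
  #((Icc (-(X : ℤ)) X).filter (fun c => (∀ p ∈ pz x, ¬ (p : ℤ) ∣ A + c) ∧ ∀ p ∈ pz y, ¬ (p : ℤ) ∣ B + c))

lemma mix (A B : ℤ) (X x y : ℕ) : ∑ c ∈ Icc (-(X : ℤ)) X, ll x (A + c) * ll y (B + c) =
    (Vz x)⁻¹ * (Vz y)⁻¹ * NN A B X x y := by
  classical
  have h : ∀ c : ℤ, ll x (A + c) * ll y (B + c) = (Vz x)⁻¹ * (Vz y)⁻¹ *
      (if (∀ p ∈ pz x, ¬ (p : ℤ) ∣ A + c) ∧ ∀ p ∈ pz y, ¬ (p : ℤ) ∣ B + c then 1 else 0) := by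
    intro c
    have e : ∀ (z : ℕ) (D : ℤ), ll z D = (Vz z)⁻¹ * (if ∀ p ∈ pz z, ¬ (p : ℤ) ∣ D then 1 else 0) := by
      intro z D
      unfold ll lamz
      have e1 : (∀ p ∈ pz z, ¬ p ∣ D.natAbs) ↔ (∀ p ∈ pz z, ¬ (p : ℤ) ∣ D) := by
        refine forall₂_congr fun p _ => ?_
        rw [← Int.natCast_dvd]
      by_cases e2 : ∀ p ∈ pz z, ¬ p ∣ D.natAbs
      · rw [if_pos e2, if_pos (e1.1 e2), mul_one]
      · rw [if_neg e2, if_neg (fun h => e2 (e1.2 h)), mul_zero]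
    rw [e, e]
    by_cases h1 : ∀ p ∈ pz x, ¬ (p : ℤ) ∣ A + c
    · by_cases h2 : ∀ p ∈ pz y, ¬ (p : ℤ) ∣ B + c
      · rw [if_pos h1, if_pos h2, if_pos ⟨h1, h2⟩]; ring
      · rw [if_pos h1, if_neg h2, if_neg (fun h : _ ∧ _ => h2 h.2)]; ring
    · rw [if_neg h1, if_neg (fun h : _ ∧ _ => h1 h.1)]; ring
  simp_rw [h]
  rw [← mul_sum]
  congr 1
  unfold NN
  rw [card_filter]
  push_cast
  refine sum_congr rfl fun c _ => ?_
  congr

lemma cor_eq (X z w n n' : ℕ) : cor (fun y => ll z y - ll w y) X n n' =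
    (Vz z)⁻¹ * (Vz z)⁻¹ * NN ((n : ℤ) ^ 2) ((n' : ℤ) ^ 2) X z z - (Vz z)⁻¹ * (Vz w)⁻¹ * NN ((n : ℤ) ^ 2) ((n' : ℤ) ^ 2) X z w -
      (Vz w)⁻¹ * (Vz z)⁻¹ * NN ((n : ℤ) ^ 2) ((n' : ℤ) ^ 2) X w z + (Vz w)⁻¹ * (Vz w)⁻¹ * NN ((n : ℤ) ^ 2) ((n' : ℤ) ^ 2) X w w := by
  rw [← mix, ← mix, ← mix, ← mix, ← sum_sub_distrib, ← sum_sub_distrib, ← sum_add_distrib]
  unfold cor
  refine sum_congr rfl fun c _ => ?_
  ring

/-- the number of the excluded residues -/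
noncomputable def rh (D : ℤ) (x y p : ℕ) : ℕ :=
  if p ≤ x ∧ p ≤ y then (if (p : ℤ) ∣ D then 1 else 2) else if p ≤ x ∨ p ≤ y then 1 else 0

lemma rh_le (D : ℤ) (x y p : ℕ) : rh D x y p ≤ 2 := by
  unfold rh; split_ifs <;> omega

lemma root_one (p : ℕ) (hp : p.Prime) (A : ℤ) : ((range p).filter (fun r : ℕ => (p : ℤ) ∣ A + r)).card = 1 := by
  have h := root_lin p hp A 1 (by
    rintro ⟨_, h2⟩
    have h3 : p ∣ 1 := by exact_mod_cast h2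
    exact hp.one_lt.ne' (Nat.dvd_one.1 h3))
  rw [if_neg (by
    intro h2
    have h3 : p ∣ 1 := by exact_mod_cast h2
    exact hp.one_lt.ne' (Nat.dvd_one.1 h3))] at h
  rw [← h]
  congr 1
  apply filter_congr
  intro r _
  rw [one_mul]

open Classical in
lemma rh_card (A B : ℤ) (x y p : ℕ) (hp : p.Prime) :
    ((range p).filter (fun r : ℕ => (p ≤ x ∧ (p : ℤ) ∣ A + r) ∨ (p ≤ y ∧ (p : ℤ) ∣ B + r))).card = rh (A - B) x y p := by
  unfold rh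
  by_cases hx : p ≤ x
  · by_cases hy : p ≤ y
    · rw [if_pos ⟨hx, hy⟩]
      simp only [hx, hy, true_and]
      obtain ⟨α, hα⟩ := card_eq_one.1 (root_one p hp A)
      obtain ⟨β, hβ⟩ := card_eq_one.1 (root_one p hp B)
      rw [filter_or]
      have eα : (range p).filter (fun r : ℕ => (p : ℤ) ∣ A + r) = {α} := by convert hα
      have eβ : (range p).filter (fun r : ℕ => (p : ℤ) ∣ B + r) = {β} := by convert hβ
      rw [eα, eβ]
      have h1 : α ∈ (range p).filter (fun r : ℕ => (p : ℤ) ∣ A + r) := by rw [eα]; exact mem_singleton_self _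
      have h2 : β ∈ (range p).filter (fun r : ℕ => (p : ℤ) ∣ B + r) := by rw [eβ]; exact mem_singleton_self _
      rw [mem_filter, mem_range] at h1 h2
      split_ifs with h
      · have h3 : β ∈ (range p).filter (fun r : ℕ => (p : ℤ) ∣ A + r) := by
          rw [mem_filter, mem_range]
          refine ⟨h2.1, ?_⟩
          have h4 := dvd_add h h2.2
          rwa [show A - B + (B + β) = A + β by ring] at h4
        rw [eα, mem_singleton] at h3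
        rw [h3, union_self, card_singleton]
      · have h3 : α ≠ β := by
          intro h3
          apply h
          rw [h3] at h1
          have h4 := dvd_sub h1.2 h2.2
          rwa [show A + (β : ℤ) - (B + β) = A - B by ring] at h4
        rw [← insert_eq, card_pair h3]
    · rw [if_neg (fun h => hy h.2), if_pos (Or.inl hx)]
      simp only [hx, hy, true_and, false_and, or_false]
      convert root_one p hp A
  · rw [if_neg (fun h => hx h.1)]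
    by_cases hy : p ≤ y
    · rw [if_pos (Or.inr hy)]
      simp only [hx, hy, true_and, false_and, false_or]
      convert root_one p hp B
    · rw [if_neg (by tauto)]
      simp only [hx, hy, false_and, or_false]
      simp

/-- the main term -/
noncomputable def Pi0 (D : ℤ) (z x y : ℕ) : ℝ := ∏ p ∈ pz z, (1 - (rh D x y p : ℝ) / p)

lemma rh_fac (D : ℤ) (x y p : ℕ) (hp : p.Prime) : 0 ≤ 1 - (rh D x y p : ℝ) / p ∧ 1 - (rh D x y p : ℝ) / p ≤ 1 := by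
  have h1 : (rh D x y p : ℝ) ≤ 2 := by exact_mod_cast rh_le D x y p
  have h2 : (2 : ℝ) ≤ p := by exact_mod_cast hp.two_le
  constructor
  · rw [sub_nonneg, div_le_one (by linarith)]; linarith
  · have : 0 ≤ (rh D x y p : ℝ) / p := by positivity
    linarith

lemma Pi0_mem (D : ℤ) (z x y : ℕ) : 0 ≤ Pi0 D z x y ∧ Pi0 D z x y ≤ 1 :=
  ⟨prod_nonneg fun p hp => (rh_fac D x y p (mem_pz.1 hp).2).1,
    prod_le_one (fun p hp => (rh_fac D x y p (mem_pz.1 hp).2).1) fun p hp => (rh_fac D x y p (mem_pz.1 hp).2).2⟩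

theorem nn_est : ∃ C0 K0 : ℕ, 1 ≤ C0 ∧ 1 ≤ K0 ∧ ∀ b : ℕ, C0 ≤ b → ∀ z : ℕ, 2 ≤ z → ∀ (X : ℕ) (A B : ℤ) (x y : ℕ),
    x ≤ z → y ≤ z → |(NN A B X x y : ℝ) - (2 * X + 1) * Pi0 (A - B) z x y| ≤
      (1 / 2 : ℝ) ^ b * (2 * X + 1) + ((JJ z : ℝ) + 2) * ((z : ℝ) ^ (2 * (C0 * b)) * (K0 * (z : ℝ) ^ (2 * (C0 * b)))) := by
  classical
  obtain ⟨C0, K0, hC0, hK0, hfl⟩ := fl_set 2
  refine ⟨C0, K0, hC0, hK0, fun b hb z hz X A B x y hx hy => ?_⟩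
  have h1 := hfl b hb z hz (2 * X + 1) (pz z) (fun p r => (p ≤ x ∧ (p : ℤ) ∣ (A - X - 1) + r) ∨ (p ≤ y ∧ (p : ℤ) ∣ (B - X - 1) + r))
    (by
      intro p hp
      rw [mem_pz] at hp
      refine ⟨hp.2, hp.1, ?_⟩
      have h2 := rh_card (A - X - 1) (B - X - 1) x y p hp.2
      have h3 := rh_le (A - X - 1 - (B - X - 1)) x y p
      rw [← h2] at h3
      convert h3)
  have hVe : ∏ p ∈ pz z, (1 - ((((range p).filter (fun r : ℕ => (p ≤ x ∧ (p : ℤ) ∣ (A - X - 1) + r) ∨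
      (p ≤ y ∧ (p : ℤ) ∣ (B - X - 1) + r))).card : ℕ) : ℝ) / p) = Pi0 (A - B) z x y := by
    unfold Pi0
    apply prod_congr rfl
    intro p hp
    rw [rh_card _ _ x y p (mem_pz.1 hp).2, show A - X - 1 - (B - X - 1) = A - B by ring]
  have hmod : ∀ (A : ℤ) (n p : ℕ), ((p : ℤ) ∣ A + ((n % p : ℕ) : ℤ)) ↔ ((p : ℤ) ∣ A + (n : ℤ)) := by
    intro A n p
    have h3 : A + ((n % p : ℕ) : ℤ) ≡ A + (n : ℤ) [ZMOD p] := by
      apply Int.ModEq.add_left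
      rw [Int.natCast_mod]
      exact Int.mod_modEq _ _
    rw [Int.dvd_iff_emod_eq_zero, Int.dvd_iff_emod_eq_zero, h3]
  have hcard : NN A B X x y = #((Icc 1 (2 * X + 1)).filter (fun n : ℕ => ∀ p ∈ pz z,
      ¬ ((p ≤ x ∧ (p : ℤ) ∣ (A - X - 1) + ((n % p : ℕ) : ℤ)) ∨ (p ≤ y ∧ (p : ℤ) ∣ (B - X - 1) + ((n % p : ℕ) : ℤ))))) := by
    unfold NN
    refine card_nbij' (fun c : ℤ => (c + X + 1).toNat) (fun t : ℕ => (t : ℤ) - X - 1) ?_ ?_ ?_ ?_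
    · intro c hc
      rw [mem_coe, mem_filter, mem_Icc] at hc
      obtain ⟨⟨c1, c2⟩, c3, c4⟩ := hc
      beta_reduce
      rw [mem_coe, mem_filter, mem_Icc]
      refine ⟨by omega, fun p hp => ?_⟩
      rw [hmod, hmod]
      have e : (((c + X + 1).toNat : ℕ) : ℤ) = c + X + 1 := by omega
      rw [e, show A - X - 1 + (c + X + 1) = A + c by ring, show B - X - 1 + (c + X + 1) = B + c by ring]
      rintro (⟨h, h'⟩ | ⟨h, h'⟩)
      · exact c3 p (mem_pz.2 ⟨h, (mem_pz.1 hp).2⟩) h'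
      · exact c4 p (mem_pz.2 ⟨h, (mem_pz.1 hp).2⟩) h'
    · intro t ht
      rw [mem_coe, mem_filter, mem_Icc] at ht
      obtain ⟨⟨t1, t2⟩, t3⟩ := ht
      beta_reduce
      rw [mem_coe, mem_filter, mem_Icc]
      refine ⟨by omega, ?_, ?_⟩
      · intro p hp h'
        have hp' := mem_pz.1 hp
        have h4 := t3 p (mem_pz.2 ⟨hp'.1.trans hx, hp'.2⟩)
        rw [hmod, hmod] at h4
        apply h4
        left
        refine ⟨hp'.1, ?_⟩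
        rwa [show A - X - 1 + (t : ℤ) = A + ((t : ℤ) - X - 1) by ring]
      · intro p hp h'
        have hp' := mem_pz.1 hp
        have h4 := t3 p (mem_pz.2 ⟨hp'.1.trans hy, hp'.2⟩)
        rw [hmod, hmod] at h4
        apply h4
        right
        refine ⟨hp'.1, ?_⟩
        rwa [show B - X - 1 + (t : ℤ) = B + ((t : ℤ) - X - 1) by ring]
    · intro c hc
      rw [mem_coe, mem_filter, mem_Icc] at hc
      show (((c + X + 1).toNat : ℕ) : ℤ) - X - 1 = c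
      omega
    · intro t ht
      rw [mem_coe, mem_filter, mem_Icc] at ht
      show ((t : ℤ) - X - 1 + X + 1).toNat = t
      omega
  have h2 : |(NN A B X x y : ℝ) - (2 * X + 1) * Pi0 (A - B) z x y| ≤
      (1 / 2 : ℝ) ^ b * ((2 * X + 1) * Pi0 (A - B) z x y) +
        ((JJ z : ℝ) + 2) * ((z : ℝ) ^ (2 * (C0 * b)) * (K0 * (z : ℝ) ^ (2 * (C0 * b)))) := by
    rw [← hVe, hcard]
    push_cast at h1 ⊢
    convert h1 using 6 <;> congr!
  refine h2.trans ?_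
  have h3 := (Pi0_mem (A - B) z x y).2
  have h4 : (2 * (X : ℝ) + 1) * Pi0 (A - B) z x y ≤ 2 * X + 1 := by
    have h5 : (0 : ℝ) ≤ 2 * X + 1 := by positivity
    nlinarith
  have h5 : (1 / 2 : ℝ) ^ b * ((2 * X + 1) * Pi0 (A - B) z x y) ≤ (1 / 2 : ℝ) ^ b * (2 * X + 1) :=
    mul_le_mul_of_nonneg_left h4 (by positivity)
  linarith

/-! ### the main terms -/

/-- the part of the primes above `w` -/
def TT (w z : ℕ) : Finset ℕ := (pz z).filter (fun p => w < p)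

lemma mem_TT {w z p : ℕ} : p ∈ TT w z ↔ (p ≤ z ∧ p.Prime) ∧ w < p := by
  unfold TT
  rw [mem_filter, mem_pz]

lemma pz_union {w z : ℕ} (h : w ≤ z) : pz z = pz w ∪ TT w z := by
  ext p
  rw [mem_union, mem_TT, mem_pz, mem_pz]
  constructor
  · rintro ⟨h1, h2⟩
    rcases Nat.lt_or_ge w p with h3 | h3
    · exact Or.inr ⟨⟨h1, h2⟩, h3⟩
    · exact Or.inl ⟨h3, h2⟩
  · rintro (⟨h1, h2⟩ | ⟨h1, h2⟩)
    · exact ⟨h1.trans h, h2⟩
    · exact h1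

lemma pz_disj (w z : ℕ) : Disjoint (pz w) (TT w z) := by
  rw [disjoint_left]
  intro p hp hp2
  have h1 := (mem_pz.1 hp).1
  have h2 := (mem_TT.1 hp2).2
  omega

/-- the singular series -/
noncomputable def Sg (D : ℤ) (x : ℕ) : ℝ := ∏ p ∈ pz x, (1 - (if (p : ℤ) ∣ D then 1 else 2 : ℝ) / p)

/-- the factor at the primes above `w` -/
noncomputable def Qf (w z : ℕ) : ℝ := ∏ p ∈ TT w z, (1 - 1 / (p : ℝ))

lemma Vz_split {w z : ℕ} (h : w ≤ z) : Vz z = Vz w * Qf w z := by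
  unfold Vz Qf
  rw [pz_union h, prod_union (pz_disj w z)]

lemma Pi0_zz (D : ℤ) (z : ℕ) : Pi0 D z z z = Sg D z := by
  unfold Pi0 Sg
  refine prod_congr rfl fun p hp => ?_
  have h := (mem_pz.1 hp).1
  unfold rh
  rw [if_pos ⟨h, h⟩]
  split_ifs <;> push_cast <;> rfl

lemma Pi0_ww (D : ℤ) {w z : ℕ} (h : w ≤ z) : Pi0 D z w w = Sg D w := by
  unfold Pi0 Sg
  rw [pz_union h, prod_union (pz_disj w z)]
  have h1 : ∏ p ∈ TT w z, (1 - (rh D w w p : ℝ) / p) = 1 := by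
    apply prod_eq_one
    intro p hp
    have h2 := (mem_TT.1 hp).2
    unfold rh
    rw [if_neg (by omega), if_neg (by omega)]
    simp
  rw [h1, mul_one]
  refine prod_congr rfl fun p hp => ?_
  have h := (mem_pz.1 hp).1
  unfold rh
  rw [if_pos ⟨h, h⟩]
  split_ifs <;> push_cast <;> rfl

lemma Pi0_zw (D : ℤ) {w z : ℕ} (h : w ≤ z) : Pi0 D z z w = Sg D w * Qf w z := by
  unfold Pi0 Sg Qf
  rw [pz_union h, prod_union (pz_disj w z)]
  congr 1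
  · refine prod_congr rfl fun p hp => ?_
    have h1 := (mem_pz.1 hp).1
    unfold rh
    rw [if_pos ⟨by omega, h1⟩]
    split_ifs <;> push_cast <;> rfl
  · refine prod_congr rfl fun p hp => ?_
    have h1 := mem_TT.1 hp
    unfold rh
    rw [if_neg (by omega), if_pos (Or.inl h1.1.1)]
    push_cast; rfl

lemma Pi0_wz (D : ℤ) {w z : ℕ} (h : w ≤ z) : Pi0 D z w z = Sg D w * Qf w z := by
  rw [← Pi0_zw D h]
  unfold Pi0
  refine prod_congr rfl fun p hp => ?_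
  have e : rh D w z p = rh D z w p := by
    unfold rh
    by_cases h1 : p ≤ z <;> by_cases h2 : p ≤ w <;> simp [h1, h2]
  rw [e]

/-- the main terms cancel -/
lemma main_eq (D : ℤ) {w z : ℕ} (h : w ≤ z) :
    (Vz z)⁻¹ * (Vz z)⁻¹ * Pi0 D z z z - (Vz z)⁻¹ * (Vz w)⁻¹ * Pi0 D z z w - (Vz w)⁻¹ * (Vz z)⁻¹ * Pi0 D z w z +
      (Vz w)⁻¹ * (Vz w)⁻¹ * Pi0 D z w w = (Vz z)⁻¹ ^ 2 * Sg D z - (Vz w)⁻¹ ^ 2 * Sg D w := by
  rw [Pi0_zz, Pi0_zw D h, Pi0_wz D h, Pi0_ww D h]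
  have h1 := Vz_split h
  have h2 := Vz_pos z
  have h3 := Vz_pos w
  have h4 : Qf w z = Vz z * (Vz w)⁻¹ := by
    rw [h1]; field_simp
  rw [h4]
  field_simp
  ring

/-! ### products close to one -/

lemma prod_sub_one (T : Finset ℕ) (ρ B e : ℕ → ℝ) (h0 : ∀ p ∈ T, 0 ≤ ρ p) (h1 : ∀ p ∈ T, ρ p ≤ B p)
    (h2 : ∀ p ∈ T, 1 ≤ B p) (h3 : ∀ p ∈ T, |ρ p - 1| ≤ e p) :
    |∏ p ∈ T, ρ p - 1| ≤ (∏ p ∈ T, B p) * ∑ p ∈ T, e p := by
  classical
  induction T using Finset.induction_on with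
  | empty => simp
  | insert q T hq ih =>
    rw [prod_insert hq, prod_insert hq, sum_insert hq]
    have ih' := ih (fun p hp => h0 p (mem_insert_of_mem hp)) (fun p hp => h1 p (mem_insert_of_mem hp))
      (fun p hp => h2 p (mem_insert_of_mem hp)) (fun p hp => h3 p (mem_insert_of_mem hp))
    have q0 := h0 q (mem_insert_self _ _)
    have q1 := h1 q (mem_insert_self _ _)
    have q2 := h2 q (mem_insert_self _ _)
    have q3 := h3 q (mem_insert_self _ _)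
    have hB1 : 1 ≤ ∏ p ∈ T, B p := by
      calc (1 : ℝ) = ∏ _p ∈ T, (1 : ℝ) := by rw [prod_const_one]
        _ ≤ _ := Finset.prod_le_prod (fun _ _ => zero_le_one) fun p hp => h2 p (mem_insert_of_mem hp)
    have he0 : 0 ≤ e q := (abs_nonneg _).trans q3
    have e1 : ρ q * ∏ p ∈ T, ρ p - 1 = ρ q * (∏ p ∈ T, ρ p - 1) + (ρ q - 1) := by ring
    rw [e1]
    refine (abs_add_le _ _).trans ?_
    rw [abs_mul, abs_of_nonneg q0]
    have s0 : 0 ≤ (∏ p ∈ T, B p) * ∑ p ∈ T, e p := (abs_nonneg _).trans ih'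
    have s1 : ρ q * |∏ p ∈ T, ρ p - 1| ≤ B q * ((∏ p ∈ T, B p) * ∑ p ∈ T, e p) :=
      mul_le_mul q1 ih' (abs_nonneg _) (by linarith)
    have s2 : e q ≤ B q * (∏ p ∈ T, B p) * e q := by
      have : 1 ≤ B q * (∏ p ∈ T, B p) := one_le_mul_of_one_le_of_one_le q2 hB1
      nlinarith
    calc ρ q * |∏ p ∈ T, ρ p - 1| + |ρ q - 1| ≤ B q * ((∏ p ∈ T, B p) * ∑ p ∈ T, e p) + B q * (∏ p ∈ T, B p) * e q := by
          linarith
      _ = _ := by ring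

/-- the size of the deviation -/
noncomputable def sg (D : ℤ) (w z : ℕ) : ℝ :=
  ∑ p ∈ TT w z, (1 / ((p : ℝ) - 1) ^ 2 + if (p : ℤ) ∣ D then 1 / ((p : ℝ) - 1) else 0)

lemma sg_nonneg (D : ℤ) (w z : ℕ) : 0 ≤ sg D w z := by
  apply sum_nonneg
  intro p hp
  have hp2 : (2 : ℝ) ≤ p := by exact_mod_cast (mem_TT.1 hp).1.2.two_le
  have h1 : 0 < (p : ℝ) - 1 := by linarith
  split_ifs <;> positivity

lemma Sg_mem (D : ℤ) (x : ℕ) : 0 ≤ Sg D x ∧ Sg D x ≤ 1 := by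
  rw [← Pi0_zz]; exact Pi0_mem D x x x

lemma Adiff (D : ℤ) {w z : ℕ} (hw : 2 ≤ w) (h : w ≤ z) :
    |(Vz z)⁻¹ ^ 2 * Sg D z - (Vz w)⁻¹ ^ 2 * Sg D w| ≤ (Vz z)⁻¹ ^ 3 * sg D w z := by
  have hV := Vz_pos z
  have hVw := Vz_pos w
  have e1 : (Vz z)⁻¹ ^ 2 * Sg D z = (Vz w)⁻¹ ^ 2 * Sg D w *
      ∏ p ∈ TT w z, ((1 - (if (p : ℤ) ∣ D then 1 else 2 : ℝ) / p) * ((1 - 1 / (p : ℝ))⁻¹ ^ 2)) := by
    rw [prod_mul_distrib, prod_pow, prod_inv_distrib]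
    have e2 : Sg D z = Sg D w * ∏ p ∈ TT w z, (1 - (if (p : ℤ) ∣ D then 1 else 2 : ℝ) / p) := by
      unfold Sg
      rw [pz_union h, prod_union (pz_disj w z)]
    rw [e2, Vz_split h, mul_inv]
    unfold Qf
    ring
  have h1 := prod_sub_one (TT w z) (fun p => (1 - (if (p : ℤ) ∣ D then 1 else 2 : ℝ) / p) * ((1 - 1 / (p : ℝ))⁻¹ ^ 2))
    (fun p => (1 - 1 / (p : ℝ))⁻¹) (fun p => 1 / ((p : ℝ) - 1) ^ 2 + if (p : ℤ) ∣ D then 1 / ((p : ℝ) - 1) else 0)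
    (by
      intro p hp
      have hpp := (mem_TT.1 hp).1.2
      have hp2 : (2 : ℝ) ≤ p := by exact_mod_cast hpp.two_le
      apply mul_nonneg _ (by positivity)
      rw [sub_nonneg]
      split_ifs
      · rw [div_le_one (by linarith)]; linarith
      · rw [div_le_one (by linarith)]; linarith)
    (by
      intro p hp
      have hpp := (mem_TT.1 hp).1.2
      have hf := fac_pos hpp
      have hp2 : (2 : ℝ) ≤ p := by exact_mod_cast hpp.two_le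
      have h2 : 1 - (if (p : ℤ) ∣ D then 1 else 2 : ℝ) / p ≤ 1 - 1 / (p : ℝ) := by
        split_ifs
        · exact le_rfl
        · have : 1 / (p : ℝ) ≤ 2 / p := div_le_div_of_nonneg_right (by norm_num) (by linarith)
          linarith
      calc (1 - (if (p : ℤ) ∣ D then 1 else 2 : ℝ) / p) * ((1 - 1 / (p : ℝ))⁻¹ ^ 2) ≤
          (1 - 1 / (p : ℝ)) * ((1 - 1 / (p : ℝ))⁻¹ ^ 2) := mul_le_mul_of_nonneg_right h2 (by positivity)
        _ = (1 - 1 / (p : ℝ))⁻¹ := by field_simp)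
    (fun p hp => fac_inv (mem_TT.1 hp).1.2)
    (by
      intro p hp
      have hpp := (mem_TT.1 hp).1.2
      have hp3 : (3 : ℝ) ≤ p := by
        have := (mem_TT.1 hp).2
        exact_mod_cast (by omega : 3 ≤ p)
      have hp1 : (0 : ℝ) < (p : ℝ) - 1 := by linarith
      have hp0 : (p : ℝ) ≠ 0 := by linarith
      have hi : (1 - 1 / (p : ℝ))⁻¹ = p / (p - 1) := by
        rw [one_sub_div hp0, inv_div]
      rw [hi]
      split_ifs with hd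
      · have e3 : (1 - 1 / (p : ℝ)) * (p / (p - 1)) ^ 2 - 1 = 1 / ((p : ℝ) - 1) := by
          field_simp; ring
        rw [e3, abs_of_pos (by positivity)]
        have : 0 < 1 / ((p : ℝ) - 1) ^ 2 := by positivity
        linarith
      · have e3 : (1 - 2 / (p : ℝ)) * (p / (p - 1)) ^ 2 - 1 = -(1 / ((p : ℝ) - 1) ^ 2) := by
          field_simp; ring
        rw [e3, abs_neg, abs_of_pos (by positivity), add_zero])
  rw [e1]
  set R := ∏ p ∈ TT w z, ((1 - (if (p : ℤ) ∣ D then 1 else 2 : ℝ) / p) * ((1 - 1 / (p : ℝ))⁻¹ ^ 2)) with hR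
  have hB : ∏ p ∈ TT w z, (1 - 1 / (p : ℝ))⁻¹ ≤ (Vz z)⁻¹ := prod_fac_le z (TT w z) (filter_subset _ _)
  have hs := sg_nonneg D w z
  have h2 : |R - 1| ≤ (Vz z)⁻¹ * sg D w z := h1.trans (mul_le_mul_of_nonneg_right hB hs)
  have e4 : (Vz w)⁻¹ ^ 2 * Sg D w * R - (Vz w)⁻¹ ^ 2 * Sg D w = (Vz w)⁻¹ ^ 2 * Sg D w * (R - 1) := by ring
  have h3 := Sg_mem D w
  rw [e4, abs_mul, abs_of_nonneg (mul_nonneg (by positivity) h3.1)]
  have h4 : (Vz w)⁻¹ ^ 2 * Sg D w ≤ (Vz z)⁻¹ ^ 2 := by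
    calc (Vz w)⁻¹ ^ 2 * Sg D w ≤ (Vz w)⁻¹ ^ 2 * 1 := mul_le_mul_of_nonneg_left h3.2 (by positivity)
      _ = (Vz w)⁻¹ ^ 2 := mul_one _
      _ ≤ _ := pow_le_pow_left₀ (inv_nonneg.2 hVw.le) (Vz_anti h) 2
  calc (Vz w)⁻¹ ^ 2 * Sg D w * |R - 1| ≤ (Vz z)⁻¹ ^ 2 * ((Vz z)⁻¹ * sg D w z) :=
        mul_le_mul h4 h2 (abs_nonneg _) (by positivity)
    _ = _ := by ring

/-- one correlation -/
theorem cor_le : ∃ C0 K0 : ℕ, 1 ≤ C0 ∧ 1 ≤ K0 ∧ ∀ b : ℕ, C0 ≤ b → ∀ w z : ℕ, 2 ≤ w → w ≤ z → ∀ X n n' : ℕ,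
    |cor (fun y => ll z y - ll w y) X n n'| ≤ (2 * X + 1) * ((Vz z)⁻¹ ^ 3 * sg ((n : ℤ) ^ 2 - (n' : ℤ) ^ 2) w z) +
      4 * (Vz z)⁻¹ ^ 2 * ((1 / 2 : ℝ) ^ b * (2 * X + 1) +
        ((JJ z : ℝ) + 2) * ((z : ℝ) ^ (2 * (C0 * b)) * (K0 * (z : ℝ) ^ (2 * (C0 * b))))) := by
  obtain ⟨C0, K0, hC0, hK0, hnn⟩ := nn_est
  refine ⟨C0, K0, hC0, hK0, fun b hb w z hw hwz X n n' => ?_⟩
  set A : ℤ := (n : ℤ) ^ 2 with hA
  set B : ℤ := (n' : ℤ) ^ 2 with hB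
  set Er := (1 / 2 : ℝ) ^ b * (2 * X + 1) +
        ((JJ z : ℝ) + 2) * ((z : ℝ) ^ (2 * (C0 * b)) * (K0 * (z : ℝ) ^ (2 * (C0 * b)))) with hEr
  have h1 := hnn b hb z (by omega) X A B z z le_rfl le_rfl
  have h2 := hnn b hb z (by omega) X A B z w le_rfl hwz
  have h3 := hnn b hb z (by omega) X A B w z hwz le_rfl
  have h4 := hnn b hb z (by omega) X A B w w hwz hwz
  rw [← hEr] at h1 h2 h3 h4
  have hm := main_eq (A - B) hwz
  have hd := Adiff (A - B) hw hwz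
  have hz0 : 0 < (Vz z)⁻¹ := inv_pos.2 (Vz_pos z)
  have hw0 : 0 < (Vz w)⁻¹ := inv_pos.2 (Vz_pos w)
  have hwz' : (Vz w)⁻¹ ≤ (Vz z)⁻¹ := Vz_anti hwz
  have hEr0 : 0 ≤ Er := (abs_nonneg _).trans h1
  rw [cor_eq]
  have e : (Vz z)⁻¹ * (Vz z)⁻¹ * (NN A B X z z : ℝ) - (Vz z)⁻¹ * (Vz w)⁻¹ * NN A B X z w -
      (Vz w)⁻¹ * (Vz z)⁻¹ * NN A B X w z + (Vz w)⁻¹ * (Vz w)⁻¹ * NN A B X w w =
      (2 * X + 1) * ((Vz z)⁻¹ ^ 2 * Sg (A - B) z - (Vz w)⁻¹ ^ 2 * Sg (A - B) w) +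
      (Vz z)⁻¹ * (Vz z)⁻¹ * (NN A B X z z - (2 * X + 1) * Pi0 (A - B) z z z) -
      (Vz z)⁻¹ * (Vz w)⁻¹ * (NN A B X z w - (2 * X + 1) * Pi0 (A - B) z z w) -
      (Vz w)⁻¹ * (Vz z)⁻¹ * (NN A B X w z - (2 * X + 1) * Pi0 (A - B) z w z) +
      (Vz w)⁻¹ * (Vz w)⁻¹ * (NN A B X w w - (2 * X + 1) * Pi0 (A - B) z w w) := by
    rw [← hm]; ring
  rw [e]
  have k1 : |(Vz z)⁻¹ * (Vz z)⁻¹ * (NN A B X z z - (2 * X + 1) * Pi0 (A - B) z z z)| ≤ (Vz z)⁻¹ ^ 2 * Er := by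
    rw [abs_mul, abs_of_pos (by positivity), sq]
    exact mul_le_mul_of_nonneg_left h1 (by positivity)
  have k2 : |(Vz z)⁻¹ * (Vz w)⁻¹ * (NN A B X z w - (2 * X + 1) * Pi0 (A - B) z z w)| ≤ (Vz z)⁻¹ ^ 2 * Er := by
    rw [abs_mul, abs_of_pos (by positivity), sq]
    exact mul_le_mul (mul_le_mul_of_nonneg_left hwz' hz0.le) h2 (abs_nonneg _) (by positivity)
  have k3 : |(Vz w)⁻¹ * (Vz z)⁻¹ * (NN A B X w z - (2 * X + 1) * Pi0 (A - B) z w z)| ≤ (Vz z)⁻¹ ^ 2 * Er := by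
    rw [abs_mul, abs_of_pos (by positivity), sq]
    exact mul_le_mul (mul_le_mul_of_nonneg_right hwz' hz0.le) h3 (abs_nonneg _) (by positivity)
  have k4 : |(Vz w)⁻¹ * (Vz w)⁻¹ * (NN A B X w w - (2 * X + 1) * Pi0 (A - B) z w w)| ≤ (Vz z)⁻¹ ^ 2 * Er := by
    rw [abs_mul, abs_of_pos (by positivity), sq]
    exact mul_le_mul (mul_le_mul hwz' hwz' hw0.le hz0.le) h4 (abs_nonneg _) (by positivity)
  have k0 : |(2 * (X : ℝ) + 1) * ((Vz z)⁻¹ ^ 2 * Sg (A - B) z - (Vz w)⁻¹ ^ 2 * Sg (A - B) w)| ≤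
      (2 * X + 1) * ((Vz z)⁻¹ ^ 3 * sg (A - B) w z) := by
    rw [abs_mul, abs_of_nonneg (by positivity)]
    exact mul_le_mul_of_nonneg_left hd (by positivity)
  rw [abs_le] at k0 k1 k2 k3 k4 ⊢
  constructor <;> linarith [k0.1, k0.2, k1.1, k1.2, k2.1, k2.2, k3.1, k3.2, k4.1, k4.2]

end Run7.h382.S
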